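import Pool.Agent.P8H16.RF.Stm

/-!
# Project RF, package KHI: Khintchine's inequality for signs, complex coefficients
-/

set_option autoImplicit false

namespace Pool.Agent.P8H84.RF

open Finset Pool.Agent.P8H16.RF

/-- the signed sum -/
noncomputable def SS (J : ℕ) (z : ℕ → ℂ) (D : Finset ℕ) : ℂ := ∑ j ∈ range J, sgn D j * z j

theorem SS_zero (z : ℕ → ℂ) (D : Finset ℕ) : SS 0 z D = 0 := by
  unfold SS
  simp

theorem SS_succ (J : ℕ) (z : ℕ → ℂ) (D : Finset ℕ) (hD : D ∈ (range J).powerset) :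
    SS (J + 1) z D = SS J z D + z J := by
  unfold SS
  rw [sum_range_succ]
  have h : J ∉ D := fun hJ => by
    have := mem_range.1 (mem_powerset.1 hD hJ)
    omega
  unfold sgn
  rw [if_neg h, one_mul]

theorem SS_succ' (J : ℕ) (z : ℕ → ℂ) (D : Finset ℕ) :
    SS (J + 1) z (insert J D) = SS J z D - z J := by
  unfold SS
  rw [sum_range_succ]
  have h : ∑ j ∈ range J, sgn (insert J D) j * z j = ∑ j ∈ range J, sgn D j * z j := by
    refine sum_congr rfl fun j hj => ?_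
    have hj' : j ≠ J := by
      have := mem_range.1 hj
      omega
    unfold sgn
    simp only [mem_insert, hj', false_or]
  rw [h]
  unfold sgn
  rw [if_pos (mem_insert_self J D)]
  ring

theorem sum_pow_succ (J : ℕ) (z : ℕ → ℂ) (f : ℂ → ℝ) :
    ∑ D ∈ (range (J + 1)).powerset, f (SS (J + 1) z D) =
      ∑ D ∈ (range J).powerset, (f (SS J z D + z J) + f (SS J z D - z J)) := by
  rw [range_add_one, sum_powerset_insert (by simp), sum_add_distrib]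
  congr 1
  · exact sum_congr rfl fun D hD => by rw [SS_succ J z D hD]
  · exact sum_congr rfl fun D _ => by rw [SS_succ' J z D]

theorem second (J : ℕ) (z : ℕ → ℂ) :
    ∑ D ∈ (range J).powerset, ‖SS J z D‖ ^ 2 = 2 ^ J * ∑ j ∈ range J, ‖z j‖ ^ 2 := by
  induction J with
  | zero => simp [SS_zero]
  | succ J ih =>
    rw [sum_pow_succ J z (fun w => ‖w‖ ^ 2)]
    have h : ∀ A w : ℂ, ‖A + w‖ ^ 2 + ‖A - w‖ ^ 2 = 2 * ‖A‖ ^ 2 + 2 * ‖w‖ ^ 2 := by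
      intro A w
      have := parallelogram_law_with_norm ℝ A w
      nlinarith [this]
    rw [sum_congr rfl fun D _ => h (SS J z D) (z J), sum_add_distrib, ← mul_sum, ih, sum_const,
      card_powerset, card_range, nsmul_eq_mul, sum_range_succ]
    push_cast
    ring

theorem fourth (J : ℕ) (z : ℕ → ℂ) :
    ∑ D ∈ (range J).powerset, ‖SS J z D‖ ^ 4 ≤ 3 * (∑ j ∈ range J, ‖z j‖ ^ 2) ^ 2 * 2 ^ J := by
  induction J with
  | zero => simp [SS_zero]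
  | succ J ih =>
    rw [sum_pow_succ J z (fun w => ‖w‖ ^ 4)]
    have h : ∀ A w : ℂ, ‖A + w‖ ^ 4 + ‖A - w‖ ^ 4 ≤ 2 * ‖A‖ ^ 4 + 12 * ‖w‖ ^ 2 * ‖A‖ ^ 2 + 2 * ‖w‖ ^ 4 := by
      intro A w
      have e1 : ∀ u : ℂ, ‖u‖ ^ 2 = u.re ^ 2 + u.im ^ 2 := by
        intro u
        rw [← Complex.normSq_eq_norm_sq, Complex.normSq_apply]
        ring
      have e2 : ∀ u : ℂ, ‖u‖ ^ 4 = (u.re ^ 2 + u.im ^ 2) ^ 2 := by
        intro u
        rw [← e1 u]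
        ring
      rw [e2, e2, e2, e2, e1, e1, Complex.add_re, Complex.add_im, Complex.sub_re, Complex.sub_im]
      nlinarith [sq_nonneg (A.re * w.im - A.im * w.re)]
    have hq : (0 : ℝ) ≤ ∑ j ∈ range J, ‖z j‖ ^ 2 := sum_nonneg fun _ _ => by positivity
    obtain ⟨Q, hQ⟩ : ∃ Q : ℝ, Q = ∑ j ∈ range J, ‖z j‖ ^ 2 := ⟨_, rfl⟩
    obtain ⟨b, hb⟩ : ∃ b : ℝ, b = ‖z J‖ ^ 2 := ⟨_, rfl⟩
    have hb0 : 0 ≤ b := by rw [hb]; positivity
    calc ∑ D ∈ (range J).powerset, (‖SS J z D + z J‖ ^ 4 + ‖SS J z D - z J‖ ^ 4)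
        ≤ ∑ D ∈ (range J).powerset,
          (2 * ‖SS J z D‖ ^ 4 + 12 * ‖z J‖ ^ 2 * ‖SS J z D‖ ^ 2 + 2 * ‖z J‖ ^ 4) :=
          sum_le_sum fun D _ => h _ _
      _ = 2 * ∑ D ∈ (range J).powerset, ‖SS J z D‖ ^ 4 +
          12 * ‖z J‖ ^ 2 * ∑ D ∈ (range J).powerset, ‖SS J z D‖ ^ 2 + 2 ^ J * (2 * ‖z J‖ ^ 4) := by
          rw [sum_add_distrib, sum_add_distrib, ← mul_sum, ← mul_sum, sum_const, card_powerset,
            card_range, nsmul_eq_mul]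
          push_cast
          ring
      _ ≤ 2 * (3 * Q ^ 2 * 2 ^ J) + 12 * b * (2 ^ J * Q) + 2 ^ J * (2 * b ^ 2) := by
          rw [second, ← hQ]
          have h4 : ‖z J‖ ^ 4 = b ^ 2 := by rw [hb]; ring
          rw [h4, ← hb]
          rw [← hQ] at ih
          linarith
      _ ≤ 3 * (Q + b) ^ 2 * 2 ^ (J + 1) := by
          have h2 : (0 : ℝ) ≤ 2 ^ J := by positivity
          have h3 : 2 * (3 * Q ^ 2 * 2 ^ J) + 12 * b * (2 ^ J * Q) + 2 ^ J * (2 * b ^ 2) + 4 * (b ^ 2 * 2 ^ J) =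
              3 * (Q + b) ^ 2 * 2 ^ (J + 1) := by
            rw [pow_succ]
            ring
          have h4 : 0 ≤ 4 * (b ^ 2 * 2 ^ J) := by positivity
          linarith
      _ = _ := by rw [sum_range_succ, ← hQ, ← hb]

theorem khi : S_KHI := by
  intro J z
  obtain ⟨Q, hQ⟩ : ∃ Q : ℝ, Q = ∑ j ∈ range J, ‖z j‖ ^ 2 := ⟨_, rfl⟩
  have hQ0 : 0 ≤ Q := by rw [hQ]; exact sum_nonneg fun _ _ => by positivity
  obtain ⟨q, hq⟩ : ∃ q : ℝ, q = Real.sqrt Q := ⟨_, rfl⟩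
  have hq0 : 0 ≤ q := by rw [hq]; exact Real.sqrt_nonneg _
  have hqQ : q ^ 2 = Q := by rw [hq]; exact Real.sq_sqrt hQ0
  change 2 ^ J * Real.sqrt (∑ j ∈ range J, ‖z j‖ ^ 2) ≤ 2 * ∑ D ∈ (range J).powerset, ‖SS J z D‖
  rw [← hQ, ← hq]
  have hnn : 0 ≤ ∑ D ∈ (range J).powerset, ‖SS J z D‖ := sum_nonneg fun _ _ => norm_nonneg _
  rcases hq0.eq_or_lt with h0 | hpos
  · rw [← h0, mul_zero]
    linarith
  have hpt : ∀ x : ℝ, 0 ≤ x → 12 * q ^ 2 * x ^ 2 - x ^ 4 ≤ 16 * q ^ 3 * x := by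
    intro x hx
    have h1 : 0 ≤ x * ((x - 2 * q) ^ 2 * (x + 4 * q)) := by positivity
    nlinarith [h1]
  have h1 : 12 * q ^ 2 * ∑ D ∈ (range J).powerset, ‖SS J z D‖ ^ 2 -
      ∑ D ∈ (range J).powerset, ‖SS J z D‖ ^ 4 ≤ 16 * q ^ 3 * ∑ D ∈ (range J).powerset, ‖SS J z D‖ := by
    rw [mul_sum, mul_sum, ← sum_sub_distrib]
    exact sum_le_sum fun D _ => hpt _ (norm_nonneg _)
  have h2 := fourth J z
  rw [second, ← hQ] at h1
  rw [← hQ] at h2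
  have h3 : 9 * q ^ 3 * (2 ^ J * q) ≤ 16 * q ^ 3 * ∑ D ∈ (range J).powerset, ‖SS J z D‖ := by
    rw [← hqQ] at h1 h2
    have e1 : 12 * q ^ 2 * (2 ^ J * q ^ 2) - 3 * (q ^ 2) ^ 2 * 2 ^ J = 9 * q ^ 3 * (2 ^ J * q) := by ring
    linarith
  have h4 : 9 * (2 ^ J * q) ≤ 16 * ∑ D ∈ (range J).powerset, ‖SS J z D‖ := by
    have hq3 : 0 < q ^ 3 := by positivity
    have e1 : 9 * q ^ 3 * (2 ^ J * q) = q ^ 3 * (9 * (2 ^ J * q)) := by ring
    have e2 : 16 * q ^ 3 * ∑ D ∈ (range J).powerset, ‖SS J z D‖ =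
        q ^ 3 * (16 * ∑ D ∈ (range J).powerset, ‖SS J z D‖) := by ring
    rw [e1, e2] at h3
    exact le_of_mul_le_mul_left h3 hq3
  have h5 : 0 ≤ 2 ^ J * q := by positivity
  linarith

end Pool.Agent.P8H84.RF
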