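import Pool.Agent.P8H16.RF.Stm

/-!
# Project RF, package ORT: orthogonality after a change of variables
-/

set_option autoImplicit false

namespace Pool.Agent.P8H84.RF

open Finset MeasureTheory Pool.Agent.P8H16.RF

theorem e_add (x y : ℝ) : e (x + y) = e x * e y := by
  unfold e
  rw [← Complex.exp_add]
  push_cast
  ring_nf

theorem continuous_e : Continuous e := by
  unfold e
  fun_prop

theorem conj_e (x : ℝ) : (starRingEnd ℂ) (e x) = e (-x) := by
  unfold e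
  rw [← Complex.exp_conj]
  simp

/-- the trigonometric polynomial -/
noncomputable def PP (J : ℕ) (z : ℕ → ℂ) (v : ℝ) : ℂ := ∑ j ∈ range J, z j * e ((j : ℝ) * v)

theorem continuous_PP (J : ℕ) (z : ℕ → ℂ) : Continuous (PP J z) := by
  unfold PP
  refine continuous_finsetSum _ fun j _ => continuous_const.mul (continuous_e.comp ?_)
  fun_prop

theorem int_e (n : ℤ) (hn : n ≠ 0) : ∫ v in (0 : ℝ)..(2 * Real.pi), e ((n : ℝ) * v) = 0 := by
  have hc : ((n : ℂ) * Complex.I) ≠ 0 := mul_ne_zero (by exact_mod_cast hn) Complex.I_ne_zero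
  have h := integral_exp_mul_complex (a := 0) (b := 2 * Real.pi) hc
  have h2 : ∀ v : ℝ, e ((n : ℝ) * v) = Complex.exp ((n : ℂ) * Complex.I * (v : ℂ)) := by
    intro v
    unfold e
    congr 1
    push_cast
    ring
  simp_rw [h2]
  rw [h]
  have h3 : Complex.exp ((n : ℂ) * Complex.I * ((2 * Real.pi : ℝ) : ℂ)) = 1 := by
    rw [Complex.exp_eq_one_iff]
    exact ⟨n, by push_cast; ring⟩
  rw [h3]
  simp

theorem normsq_PP (J : ℕ) (z : ℕ → ℂ) (v : ℝ) : ((‖PP J z v‖ ^ 2 : ℝ) : ℂ) =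
    ∑ j ∈ range J, ∑ k ∈ range J, z j * (starRingEnd ℂ) (z k) * e ((((j : ℤ) - (k : ℤ) : ℤ) : ℝ) * v) := by
  have h1 : ((‖PP J z v‖ ^ 2 : ℝ) : ℂ) = PP J z v * (starRingEnd ℂ) (PP J z v) := by
    rw [Complex.mul_conj, Complex.normSq_eq_norm_sq]
  rw [h1]
  unfold PP
  rw [map_sum, sum_mul_sum]
  refine sum_congr rfl fun j _ => sum_congr rfl fun k _ => ?_
  rw [map_mul, conj_e]
  have h3 : e ((((j : ℤ) - (k : ℤ) : ℤ) : ℝ) * v) = e ((j : ℝ) * v) * e (-((k : ℝ) * v)) := by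
    rw [← e_add]
    congr 1
    push_cast
    ring
  rw [h3]
  ring

theorem int_term (c : ℂ) (j k : ℕ) :
    ∫ v in (0 : ℝ)..(2 * Real.pi), c * e ((((j : ℤ) - (k : ℤ) : ℤ) : ℝ) * v) =
      if k = j then c * ((2 * Real.pi : ℝ) : ℂ) else 0 := by
  by_cases h : k = j
  · rw [if_pos h, h, sub_self]
    have h0 : ∀ v : ℝ, c * e (((0 : ℤ) : ℝ) * v) = c := by
      intro v
      unfold e
      simp
    simp_rw [h0]
    rw [intervalIntegral.integral_const, sub_zero, Complex.real_smul]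
    ring
  · rw [if_neg h, intervalIntegral.integral_const_mul, int_e, mul_zero]
    intro h0
    exact h (by omega)

theorem int_PP (J : ℕ) (z : ℕ → ℂ) :
    ∫ v in (0 : ℝ)..(2 * Real.pi), ‖PP J z v‖ ^ 2 = 2 * Real.pi * ∑ j ∈ range J, ‖z j‖ ^ 2 := by
  have hi : ∀ (c : ℂ) (n : ℤ), IntervalIntegrable (fun v : ℝ => c * e ((n : ℝ) * v)) volume 0 (2 * Real.pi) := by
    intro c n
    refine Continuous.intervalIntegrable ?_ _ _
    refine continuous_const.mul (continuous_e.comp ?_)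
    fun_prop
  have h1 : ((∫ v in (0 : ℝ)..(2 * Real.pi), ‖PP J z v‖ ^ 2 : ℝ) : ℂ) =
      ∫ v in (0 : ℝ)..(2 * Real.pi), ∑ j ∈ range J, ∑ k ∈ range J,
        z j * (starRingEnd ℂ) (z k) * e ((((j : ℤ) - (k : ℤ) : ℤ) : ℝ) * v) := by
    rw [← intervalIntegral.integral_ofReal]
    exact intervalIntegral.integral_congr fun v _ => normsq_PP J z v
  have h2 : ∫ v in (0 : ℝ)..(2 * Real.pi), ∑ j ∈ range J, ∑ k ∈ range J,
        z j * (starRingEnd ℂ) (z k) * e ((((j : ℤ) - (k : ℤ) : ℤ) : ℝ) * v) =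
      ∑ j ∈ range J, ∑ k ∈ range J, ∫ v in (0 : ℝ)..(2 * Real.pi),
        z j * (starRingEnd ℂ) (z k) * e ((((j : ℤ) - (k : ℤ) : ℤ) : ℝ) * v) := by
    rw [intervalIntegral.integral_finsetSum fun j _ => ?_]
    · exact sum_congr rfl fun j _ => intervalIntegral.integral_finsetSum fun k _ => hi _ _
    · have h3 := IntervalIntegrable.sum (μ := volume) (a := 0) (b := 2 * Real.pi) (range J)
        (f := fun k v => z j * (starRingEnd ℂ) (z k) * e ((((j : ℤ) - (k : ℤ) : ℤ) : ℝ) * v)) fun k _ => hi _ _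
      refine h3.congr ?_
      intro v _
      simp only [Finset.sum_apply]
  have h4 : ∑ j ∈ range J, ∑ k ∈ range J, ∫ v in (0 : ℝ)..(2 * Real.pi),
        z j * (starRingEnd ℂ) (z k) * e ((((j : ℤ) - (k : ℤ) : ℤ) : ℝ) * v) =
      ((2 * Real.pi * ∑ j ∈ range J, ‖z j‖ ^ 2 : ℝ) : ℂ) := by
    rw [mul_sum, Complex.ofReal_sum]
    refine sum_congr rfl fun j hj => ?_
    simp_rw [int_term]
    rw [sum_ite_eq' (range J) j, if_pos hj, Complex.mul_conj, Complex.normSq_eq_norm_sq]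
    push_cast
    ring
  have h5 := h1.trans (h2.trans h4)
  exact_mod_cast h5

theorem ort : S_ORT := by
  intro M H K J z hH hHM hMK
  have hM0 : 0 < M := by linarith
  have hK0 : 0 < K := by
    by_contra hK
    have : K * H ≤ 0 := mul_nonpos_of_nonpos_of_nonneg (not_lt.1 hK) (by linarith)
    linarith
  have hpi := Real.pi_gt_three
  -- the change of variables
  obtain ⟨φ, hφ⟩ : ∃ φ : ℝ → ℝ, φ = fun r => H * Real.log (1 + r / M) := ⟨_, rfl⟩
  obtain ⟨φ', hφ'⟩ : ∃ φ' : ℝ → ℝ, φ' = fun r => H * ((1 / M) / (1 + r / M)) := ⟨_, rfl⟩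
  have hpos : ∀ r : ℝ, 0 ≤ r → 0 < 1 + r / M := by
    intro r hr
    positivity
  have hder : ∀ r ∈ Set.uIcc (0 : ℝ) 1, HasDerivAt φ (φ' r) r := by
    intro r hr
    rw [Set.uIcc_of_le zero_le_one] at hr
    have h1 : HasDerivAt (fun r : ℝ => 1 + r / M) (1 / M) r := by
      simpa using ((hasDerivAt_id r).div_const M).const_add 1
    have h2 := (h1.log (hpos r hr.1).ne').const_mul H
    rw [hφ, hφ']
    exact h2
  have hcont' : ContinuousOn φ' (Set.uIcc 0 1) := by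
    rw [Set.uIcc_of_le zero_le_one, hφ']
    refine ContinuousOn.mul continuousOn_const (ContinuousOn.div continuousOn_const ?_ ?_)
    · fun_prop
    · intro r hr
      exact (hpos r hr.1).ne'
  have hcontφ : ContinuousOn φ (Set.uIcc 0 1) := fun r hr => (hder r hr).continuousAt.continuousWithinAt
  have hg : Continuous (fun v : ℝ => ‖PP J z v‖ ^ 2) := (continuous_PP J z).norm.pow 2
  have hcv := intervalIntegral.integral_comp_mul_deriv hder hcont' hg
  have hφ0 : φ 0 = 0 := by rw [hφ]; simp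
  have hφ1 : 0 ≤ φ 1 := by
    rw [hφ]
    have h1 : (0 : ℝ) ≤ 1 / M := by positivity
    exact mul_nonneg (by linarith) (Real.log_nonneg (by linarith))
  have hφ1' : φ 1 ≤ 2 * Real.pi := by
    rw [hφ]
    have h1 : Real.log (1 + 1 / M) ≤ 1 / M := by
      have := Real.log_le_sub_one_of_pos (hpos 1 zero_le_one)
      linarith
    have h2 : H * Real.log (1 + 1 / M) ≤ H * (1 / M) := mul_le_mul_of_nonneg_left h1 (by linarith)
    have h3 : H * (1 / M) ≤ 1 := by
      rw [mul_one_div, div_le_one hM0]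
      exact hHM
    change H * Real.log (1 + 1 / M) ≤ 2 * Real.pi
    linarith
  have hlow : ∀ r ∈ Set.Icc (0 : ℝ) 1, 1 ≤ 2 * K * φ' r := by
    intro r hr
    rw [hφ']
    have e1 : 2 * K * (H * ((1 / M) / (1 + r / M))) = (2 * (K * H)) / (M + r) := by
      have : 1 + r / M ≠ 0 := (hpos r hr.1).ne'
      have h2 : M + r ≠ 0 := by
        have := hr.1
        linarith
      have h3 : 1 + r / M = (M + r) / M := by field_simp
      rw [h3]
      field_simp
    change 1 ≤ 2 * K * (H * ((1 / M) / (1 + r / M)))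
    rw [e1, le_div_iff₀ (by linarith [hr.1])]
    have := hr.2
    linarith
  have hle : ∫ r in (0 : ℝ)..1, ‖PP J z (φ r)‖ ^ 2 ≤
      ∫ r in (0 : ℝ)..1, (2 * K) * (((fun v : ℝ => ‖PP J z v‖ ^ 2) ∘ φ) r * φ' r) := by
    refine intervalIntegral.integral_mono_on zero_le_one ?_ ?_ ?_
    · exact (hg.comp_continuousOn hcontφ).intervalIntegrable
    · exact (ContinuousOn.mul continuousOn_const ((hg.comp_continuousOn hcontφ).mul hcont')).intervalIntegrable
    · intro r hr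
      have h1 := hlow r hr
      have h2 : 0 ≤ ‖PP J z (φ r)‖ ^ 2 := by positivity
      change ‖PP J z (φ r)‖ ^ 2 ≤ (2 * K) * (‖PP J z (φ r)‖ ^ 2 * φ' r)
      calc ‖PP J z (φ r)‖ ^ 2 = ‖PP J z (φ r)‖ ^ 2 * 1 := by ring
        _ ≤ ‖PP J z (φ r)‖ ^ 2 * (2 * K * φ' r) := mul_le_mul_of_nonneg_left h1 h2
        _ = _ := by ring
  have hsub : ∫ v in (0 : ℝ)..(φ 1), ‖PP J z v‖ ^ 2 ≤ ∫ v in (0 : ℝ)..(2 * Real.pi), ‖PP J z v‖ ^ 2 := by
    have h1 := intervalIntegral.integral_add_adjacent_intervals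
      (hg.intervalIntegrable (μ := volume) 0 (φ 1)) (hg.intervalIntegrable (μ := volume) (φ 1) (2 * Real.pi))
    have h2 : 0 ≤ ∫ v in (φ 1)..(2 * Real.pi), ‖PP J z v‖ ^ 2 :=
      intervalIntegral.integral_nonneg hφ1' fun v _ => by positivity
    linarith
  rw [hφ0] at hcv
  have e0 : (∫ r in (0 : ℝ)..1, ‖∑ j ∈ range J, z j * e ((j : ℝ) * (H * Real.log (1 + r / M)))‖ ^ 2) =
      ∫ r in (0 : ℝ)..1, ‖PP J z (φ r)‖ ^ 2 := by
    rw [hφ]
    rfl
  rw [e0]
  calc ∫ r in (0 : ℝ)..1, ‖PP J z (φ r)‖ ^ 2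
      ≤ ∫ r in (0 : ℝ)..1, (2 * K) * (((fun v : ℝ => ‖PP J z v‖ ^ 2) ∘ φ) r * φ' r) := hle
    _ = (2 * K) * ∫ v in (0 : ℝ)..(φ 1), ‖PP J z v‖ ^ 2 := by
        rw [intervalIntegral.integral_const_mul, hcv]
    _ ≤ (2 * K) * ∫ v in (0 : ℝ)..(2 * Real.pi), ‖PP J z v‖ ^ 2 :=
        mul_le_mul_of_nonneg_left hsub (by positivity)
    _ = 4 * Real.pi * K * ∑ j ∈ range J, ‖z j‖ ^ 2 := by
        rw [int_PP]
        ring

end Pool.Agent.P8H84.RF
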