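import Pool.Agent.P8H84.RF.Khi

/-!
# Project RF, package SQF: the square function of the blocks
-/

set_option autoImplicit false

namespace Pool.Agent.P8H84.RF

open Finset Pool.Agent.P8H16.RF

theorem reindex (J H : ℕ) (f : ℕ → ℝ) :
    ∑ t ∈ range (J * H), f t = ∑ j ∈ range J, ∑ u ∈ range H, f (j * H + u) := by
  induction J with
  | zero => simp
  | succ J ih => rw [Nat.succ_mul, sum_range_add, sum_range_succ, ih]

/-- the signed blocks -/
noncomputable def AD (J H : ℕ) (a : ℕ → ℂ) (w : ℕ → ℝ) (D : Finset ℕ) (u : ℕ) : ℂ :=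
  (w u : ℂ) * SS J (fun j => a (j * H + u)) D

theorem F_AD (J H : ℕ) (a : ℕ → ℂ) (w : ℕ → ℝ) (D : Finset ℕ) (x : ℝ) :
    F H (AD J H a w D) x =
      ∑ j ∈ range J, sgn D j * ∑ u ∈ range H, a (j * H + u) * (w u : ℂ) * e ((u : ℝ) * x) := by
  unfold F AD SS
  simp_rw [mul_sum, sum_mul]
  rw [sum_comm]
  exact sum_congr rfl fun j _ => sum_congr rfl fun u _ => by ring

theorem norm_sgn (D : Finset ℕ) (j : ℕ) : ‖sgn D j‖ = 1 := by
  unfold sgn
  split_ifs <;> simp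

theorem norm_AD (J H : ℕ) (a : ℕ → ℂ) (w : ℕ → ℝ) (hw : ∀ u, |w u| ≤ 1) (D : Finset ℕ) (u : ℕ) :
    ‖AD J H a w D u‖ ≤ ‖SS J (fun j => a (j * H + u)) D‖ := by
  unfold AD
  rw [norm_mul, Complex.norm_real, Real.norm_eq_abs]
  calc |w u| * ‖SS J (fun j => a (j * H + u)) D‖ ≤ 1 * ‖SS J (fun j => a (j * H + u)) D‖ :=
        mul_le_mul_of_nonneg_right (hw u) (norm_nonneg _)
    _ = _ := one_mul _

theorem sum_n1 (J H : ℕ) (a : ℕ → ℂ) (w : ℕ → ℝ) (hw : ∀ u, |w u| ≤ 1) :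
    ∑ D ∈ (range J).powerset, n1 H (AD J H a w D) ≤ 2 ^ J * n1 (J * H) a := by
  have h : ∀ D ∈ (range J).powerset, n1 H (AD J H a w D) ≤ n1 (J * H) a := by
    intro D _
    unfold n1
    rw [reindex, sum_comm]
    refine sum_le_sum fun u _ => (norm_AD J H a w hw D u).trans ?_
    unfold SS
    refine (norm_sum_le _ _).trans (sum_le_sum fun j _ => ?_)
    rw [norm_mul, norm_sgn, one_mul]
  refine (sum_le_sum h).trans ?_
  rw [sum_const, card_powerset, card_range, nsmul_eq_mul]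
  push_cast
  exact le_rfl

theorem sum_n2 (J H : ℕ) (a : ℕ → ℂ) (w : ℕ → ℝ) (hw : ∀ u, |w u| ≤ 1) :
    ∑ D ∈ (range J).powerset, n2 H (AD J H a w D) ≤ 2 ^ J * n2 (J * H) a := by
  have h1 : (∑ D ∈ (range J).powerset, n2 H (AD J H a w D)) ^ 2 ≤ (2 ^ J * n2 (J * H) a) ^ 2 := by
    have h2 := sq_sum_le_card_mul_sum_sq (s := (range J).powerset) (f := fun D => n2 H (AD J H a w D))
    refine h2.trans ?_
    rw [card_powerset, card_range]
    have h3 : ∀ D ∈ (range J).powerset, n2 H (AD J H a w D) ^ 2 ≤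
        ∑ u ∈ range H, ‖SS J (fun j => a (j * H + u)) D‖ ^ 2 := by
      intro D _
      unfold n2
      rw [Real.sq_sqrt (sum_nonneg fun _ _ => by positivity)]
      exact sum_le_sum fun u _ => pow_le_pow_left₀ (norm_nonneg _) (norm_AD J H a w hw D u) 2
    have h4 : ∑ D ∈ (range J).powerset, n2 H (AD J H a w D) ^ 2 ≤ 2 ^ J * n2 (J * H) a ^ 2 := by
      refine (sum_le_sum h3).trans ?_
      rw [sum_comm]
      unfold n2
      rw [Real.sq_sqrt (sum_nonneg fun _ _ => by positivity), reindex, sum_comm (s := range J), mul_sum]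
      exact sum_le_sum fun u _ => (second J (fun j => a (j * H + u))).le
    calc ((2 ^ J : ℕ) : ℝ) * ∑ D ∈ (range J).powerset, n2 H (AD J H a w D) ^ 2
        ≤ ((2 ^ J : ℕ) : ℝ) * (2 ^ J * n2 (J * H) a ^ 2) := mul_le_mul_of_nonneg_left h4 (by positivity)
      _ = (2 ^ J * n2 (J * H) a) ^ 2 := by
          push_cast
          ring
  have h5 : 0 ≤ 2 ^ J * n2 (J * H) a := by
    unfold n2
    positivity
  exact le_of_sq_le_sq h1 h5

theorem sqf (hkhi : S_KHI) : S_SQF := by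
  intro κ s hL ε hε
  obtain ⟨C, hC0, hC⟩ := hL ε hε
  refine ⟨2 * C, by positivity, fun N J H a w hN hH hw => ?_⟩
  have hHM : (H : ℝ) ≤ (N : ℝ) ^ (1 + κ) + 1 := by linarith
  have hpt : ∀ n : ℕ, 2 ^ J * Real.sqrt (∑ j ∈ range J,
      ‖∑ u ∈ range H, a (j * H + u) * (w u : ℂ) * e ((u : ℝ) * Real.log n)‖ ^ 2) ≤
      2 * ∑ D ∈ (range J).powerset, ‖F H (AD J H a w D) (Real.log n)‖ := by
    intro n
    have h := hkhi J (fun j => ∑ u ∈ range H, a (j * H + u) * (w u : ℂ) * e ((u : ℝ) * Real.log n))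
    refine h.trans (le_of_eq ?_)
    congr 1
    exact sum_congr rfl fun D _ => by rw [F_AD]
  have hNε : (0 : ℝ) ≤ (N : ℝ) ^ ε := by positivity
  have hNs : (0 : ℝ) ≤ (N : ℝ) ^ s := by positivity
  have h1 : 2 ^ J * ∑ n ∈ Icc N (2 * N), Real.sqrt (∑ j ∈ range J,
      ‖∑ u ∈ range H, a (j * H + u) * (w u : ℂ) * e ((u : ℝ) * Real.log n)‖ ^ 2) ≤
      2 ^ J * (2 * C * (N : ℝ) ^ ε * ((N : ℝ) * n2 (J * H) a + (N : ℝ) ^ s * n1 (J * H) a)) := by
    calc 2 ^ J * ∑ n ∈ Icc N (2 * N), Real.sqrt (∑ j ∈ range J,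
          ‖∑ u ∈ range H, a (j * H + u) * (w u : ℂ) * e ((u : ℝ) * Real.log n)‖ ^ 2)
        ≤ ∑ n ∈ Icc N (2 * N), 2 * ∑ D ∈ (range J).powerset, ‖F H (AD J H a w D) (Real.log n)‖ := by
          rw [mul_sum]
          exact sum_le_sum fun n _ => hpt n
      _ = 2 * ∑ D ∈ (range J).powerset, ∑ n ∈ Icc N (2 * N), ‖F H (AD J H a w D) (Real.log n)‖ := by
          rw [← mul_sum, sum_comm]
      _ ≤ 2 * ∑ D ∈ (range J).powerset, C * (N : ℝ) ^ ε *
          ((N : ℝ) * n2 H (AD J H a w D) + (N : ℝ) ^ s * n1 H (AD J H a w D)) := by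
          refine mul_le_mul_of_nonneg_left (sum_le_sum fun D _ => ?_) (by norm_num)
          exact hC N H (AD J H a w D) hN hHM
      _ = 2 * (C * (N : ℝ) ^ ε * ((N : ℝ) * ∑ D ∈ (range J).powerset, n2 H (AD J H a w D) +
          (N : ℝ) ^ s * ∑ D ∈ (range J).powerset, n1 H (AD J H a w D))) := by
          rw [← mul_sum, sum_add_distrib, ← mul_sum, ← mul_sum]
      _ ≤ 2 * (C * (N : ℝ) ^ ε * ((N : ℝ) * (2 ^ J * n2 (J * H) a) +
          (N : ℝ) ^ s * (2 ^ J * n1 (J * H) a))) := by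
          have h2 := mul_le_mul_of_nonneg_left (sum_n2 J H a w hw) (Nat.cast_nonneg (α := ℝ) N)
          have h3 := mul_le_mul_of_nonneg_left (sum_n1 J H a w hw) hNs
          have h4 : 0 ≤ C * (N : ℝ) ^ ε := by positivity
          have h5 := mul_le_mul_of_nonneg_left (add_le_add h2 h3) h4
          linarith
      _ = _ := by ring
  exact le_of_mul_le_mul_left h1 (by positivity)

end Pool.Agent.P8H84.RF
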